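import Mathlib
import Pool.Agent.H49Bk.W9
import Pool.Agent.H49Bk.W11
import Pool.Agent.H34Det.All
import Pool.Agent.H63PL.Main

/-!
Linear algebra in unbounded dimension. Functions in `DFun n` are the functions with a bounded
formula graph and a polynomial bound. The vectors of `(ℤ/m)^N` are coded by the numbers below
`m ^ N` (digits to the base `m`), where `m`, `N` are functions in `DFun n` and `m ^ N` is bounded by
a function in `DFun n`. For `m = 2` these vectors are words of `N` bits; the maps which are composed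
of other Boolean functions are compared with the affine maps.
-/

set_option autoImplicit false

namespace Pool.Agent.Results.MP_a56640_lc.AffineIteration

open Pool.Agent.Grz

/-- The digit `i` of `z` to the base `m`. -/
def digit (m z i : ℕ) : ℕ := z / m ^ i % m

/-- The vector over `ℤ/m` of the first `N` digits of `z` to the base `m`. -/
def vec (m N z : ℕ) : Fin N → ZMod m := fun i => (digit m z i : ZMod m)

/-- The steps `z ↦ T j z + b` with `j < k` and `b` in `R`, on the numbers below `m ^ N`. -/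
def Step (m N : ℕ) {k : ℕ} (T : Fin k → ℕ → ℕ) (R : ℕ → Prop) (z z' : ℕ) : Prop :=
  z' < m ^ N ∧ ∃ j, ∃ b, b < m ^ N ∧ R b ∧ vec m N z' = vec m N (T j z) + vec m N b

/-- The Boolean functions of the bits `b 0`, .., `b (N - 1)` that are composed of functions in `F`
and bits. -/
inductive Term {k : ℕ} (F : Set ((Fin k → Bool) → Bool)) (N : ℕ) : ((ℕ → Bool) → Bool) → Prop
  | bit {j : ℕ} (hj : j < N) : Term F N fun b => b j
  | app {f : (Fin k → Bool) → Bool} (hf : f ∈ F) {g : Fin k → (ℕ → Bool) → Bool}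
      (hg : ∀ l, Term F N (g l)) : Term F N fun b => f fun l => g l b

/-- The maps `T` on the numbers below `2 ^ N` such that every bit of `T z` is a fixed composition
of functions in `F` and bits of `z`. -/
def FMap {k : ℕ} (F : Set ((Fin k → Bool) → Bool)) (N : ℕ) (T : ℕ → ℕ) : Prop :=
  ∀ i < N, ∃ g, Term F N g ∧ ∀ z < 2 ^ N, (T z).testBit i = g z.testBit

/-- The maps `T` on the numbers below `2 ^ N` such that every bit of `T z` is a fixed bit of `z`, or
a fixed function in `F` of fixed bits of `z`. -/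
def FMap1 {k : ℕ} (F : Set ((Fin k → Bool) → Bool)) (N : ℕ) (T : ℕ → ℕ) : Prop :=
  ∀ i < N, (∃ j < N, ∀ z < 2 ^ N, (T z).testBit i = z.testBit j) ∨
    ∃ f ∈ F, ∃ a : Fin k → ℕ, (∀ l, a l < N) ∧
      ∀ z < 2 ^ N, (T z).testBit i = f (fun l => z.testBit (a l))

/-- The iterates of the definable families of maps in the class `P` are in `DFun n`. -/
def Iterates (P : ℕ → (ℕ → ℕ) → Prop) : Prop :=
  ∀ (n : ℕ) (N B x t : (Fin n → ℕ) → ℕ) (T : ℕ → (Fin n → ℕ) → ℕ),
    DFun n N → DFun n B → DFun n x → DFun n t →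
    DFun (n + 1) (fun w => T (w 0) fun i => w i.succ) →
    (∀ v, 2 ^ N v ≤ B v) → (∀ v, x v < 2 ^ N v) →
    (∀ v z, z < 2 ^ N v → T z v < 2 ^ N v) → (∀ v, P (N v) fun z => T z v) →
    DFun n (fun v => (fun z => T z v)^[t v] (x v))

/-- All functions in `F` are affine over `ℤ/2`, or all of them preserve the disjunction, or all of
them preserve the conjunction. -/
def Tame {k : ℕ} (F : Set ((Fin k → Bool) → Bool)) : Prop :=
  (∀ f ∈ F, ∀ x y z, f (fun l => xor (xor (x l) (y l)) (z l)) = xor (xor (f x) (f y)) (f z)) ∨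
  (∀ f ∈ F, ∀ x y, f (fun l => x l || y l) = (f x || f y)) ∨
  (∀ f ∈ F, ∀ x y, f (fun l => x l && y l) = (f x && f y))

section

open Pool.Agent.H63PL

variable {k : ℕ} {F : Set ((Fin k → Bool) → Bool)}

theorem term_xor (h : ∀ f ∈ F, ∀ x y z,
    f (fun l => xor (xor (x l) (y l)) (z l)) = xor (xor (f x) (f y)) (f z)) {N : ℕ}
    {g : (ℕ → Bool) → Bool} (hg : Term F N g) (a b c : ℕ → Bool) :
    g (fun j => xor (xor (a j) (b j)) (c j)) = xor (xor (g a) (g b)) (g c) := by
  induction hg with
  | bit _ => rfl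
  | app hf _ ih => simp only [ih, h _ hf]

theorem term_or (h : ∀ f ∈ F, ∀ x y, f (fun l => x l || y l) = (f x || f y)) {N : ℕ}
    {g : (ℕ → Bool) → Bool} (hg : Term F N g) (a b : ℕ → Bool) :
    g (fun j => a j || b j) = (g a || g b) := by
  induction hg with
  | bit _ => rfl
  | app hf _ ih => simp only [ih, h _ hf]

theorem term_and (h : ∀ f ∈ F, ∀ x y, f (fun l => x l && y l) = (f x && f y)) {N : ℕ}
    {g : (ℕ → Bool) → Bool} (hg : Term F N g) (a b : ℕ → Bool) :
    g (fun j => a j && b j) = (g a && g b) := by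
  induction hg with
  | bit _ => rfl
  | app hf _ ih => simp only [ih, h _ hf]

theorem iterates_of_tame (h : Tame F) : Iterates (FMap F) := by
  intro n N B x t T hN hB hx ht hT hNB hxb hTb hR
  rcases h with h | h | h
  · refine xor_iter' hN hB hx ht hT hNB hTb (fun v a b c ha hb hc => ?_) hxb
    have hab := Nat.xor_lt_two_pow ha hb
    have habc := Nat.xor_lt_two_pow hab hc
    refine ext_testBit (N := N v) (hTb v _ habc)
      (Nat.xor_lt_two_pow (Nat.xor_lt_two_pow (hTb v _ ha) (hTb v _ hb)) (hTb v _ hc))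
      fun i hi => ?_
    obtain ⟨g, hg, hj⟩ := hR v i hi
    rw [Nat.testBit_xor, Nat.testBit_xor, hj _ habc, hj _ ha, hj _ hb, hj _ hc, ← term_xor h hg]
    congr 1
    funext l
    rw [Nat.testBit_xor, Nat.testBit_xor]
  · refine or_iter' hN hB hx ht hT hNB hTb (fun v a b ha hb => ?_) hxb
    have hab := Nat.or_lt_two_pow ha hb
    refine ext_testBit (N := N v) (hTb v _ hab) (Nat.or_lt_two_pow (hTb v _ ha) (hTb v _ hb))
      fun i hi => ?_
    obtain ⟨g, hg, hj⟩ := hR v i hi
    rw [Nat.testBit_or, hj _ hab, hj _ ha, hj _ hb, ← term_or h hg]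
    congr 1
    funext l
    rw [Nat.testBit_or]
  · refine and_iter' hN hB hx ht hT hNB hTb (fun v a b ha hb => ?_) hxb
    have hab : a &&& b < 2 ^ N v := lt_of_le_of_lt Nat.and_le_left ha
    refine ext_testBit (N := N v) (hTb v _ hab)
      (lt_of_le_of_lt Nat.and_le_left (hTb v _ ha)) fun i hi => ?_
    obtain ⟨g, hg, hj⟩ := hR v i hi
    rw [Nat.testBit_and, hj _ hab, hj _ ha, hj _ hb, ← term_and h hg]
    congr 1
    funext l
    rw [Nat.testBit_and]

theorem fMap_of_one {N : ℕ} {T : ℕ → ℕ} (h : FMap1 F N T) : FMap F N T := by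
  intro i hi
  rcases h i hi with ⟨j, hj, h⟩ | ⟨f, hf, a, ha, h⟩
  · exact ⟨_, Term.bit hj, h⟩
  · exact ⟨_, Term.app hf fun l => Term.bit (ha l), h⟩

theorem one_of_all (H : Iterates (FMap F)) : Iterates (FMap1 F) :=
  fun n N B x t T hN hB hx ht hT hNB hxb hTb hF =>
    H n N B x t T hN hB hx ht hT hNB hxb hTb fun v => fMap_of_one (hF v)

theorem tame_or_eq (H : Iterates (FMap1 F)) :
    Tame F ∨ ∀ (n : ℕ) (R : (Fin n → ℕ) → Prop), Delta0 n R ↔ E2Star n R := by
  by_cases ht : Tame F
  · exact Or.inl ht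
  · exact Or.inr (eq_of_iterF ht fun n N B x t T hN hB hx ht hT hNB hTb hF hxb =>
      H n N B x t T hN hB hx ht hT hNB hxb hTb hF)

theorem all_of (h : Tame F ∨ ∀ (n : ℕ) (R : (Fin n → ℕ) → Prop), Delta0 n R ↔ E2Star n R) :
    Iterates (FMap F) := by
  rcases h with h | h
  · exact iterates_of_tame h
  · intro n N B x t T hN hB hx ht hT hNB hxb hTb _
    exact Pool.Agent.LinU46.iter_of_eq (fun n R hR => (h n R).2 hR)
      (Pool.Agent.LinU.dfun_powLe (DFun.const 2) hN hB hNB) hx ht hT hxb hTb

end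

/-- **Main theorem.** (1) If `m ^ N ≤ B` and the maps `T j · v` are affine on `(ℤ/m)^N` then their
iterates and the coefficients of the characteristic polynomials of their linear parts `A j` are
defined by bounded formulas. If they are bijective and every `A j` normalizes the group generated
by the `A i`, `i < j`, then the set of the numbers that are reachable by the steps
`z ↦ T j z v + b`, `R (b, v)`, is also defined by bounded formulas, and so is its order.

(2) Let `m ≥ 2` be fixed, `N = log_m p`. The equality of `Delta0` and `E2Star` is equivalent to the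
definability of one function: the term `t` of the recurrence
`s (i + N) = (∑ j < N, u j * s (i + j)) * (∑ j < N, w j * s (i + j))` modulo `m`, as a function of
the coefficients `u`, `w`, the initial terms, `p` and `t`.

(3) Let `F` be a set of Boolean functions. The iterates of all definable families of maps all of
whose bits are compositions of functions in `F` are defined by bounded formulas iff `F` is tame or
`Delta0` is equal to `E2Star`. The same is true for maps all of whose bits are given by at most one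
function in `F`. -/
theorem result :
    (∀ (k n : ℕ) (m N B x y t : (Fin n → ℕ) → ℕ) (T : Fin k → ℕ → (Fin n → ℕ) → ℕ)
      (R : (Fin (n + 1) → ℕ) → Prop)
      (A : ∀ v, Fin k → Matrix (Fin (N v)) (Fin (N v)) (ZMod (m v)))
      (c : ∀ v, Fin k → Fin (N v) → ZMod (m v)),
      DFun n m → DFun n N → DFun n B → DFun n x → DFun n y → DFun n t →
      (∀ j, DFun (n + 1) (fun w => T j (w 0) fun i => w i.succ)) → Delta0 (n + 1) R →
      (∀ v, 0 < m v) → (∀ v, m v ^ N v ≤ B v) → (∀ v, x v < m v ^ N v) →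
      (∀ v j z, z < m v ^ N v → T j z v < m v ^ N v) →
      (∀ v j z, z < m v ^ N v →
        vec (m v) (N v) (T j z v) = (A v j).mulVec (vec (m v) (N v) z) + c v j) →
      (∀ j, DFun n (fun v => (fun z => T j z v)^[t v] (x v)) ∧
        DFun n (fun v => ((A v j).charpoly.coeff (t v)).val)) ∧
      ((∀ v j z z', z < m v ^ N v → z' < m v ^ N v → T j z v = T j z' v → z = z') →
        (∀ v i j, i < j → ∃ M ∈ Submonoid.closure {X | ∃ l, l < j ∧ X = A v l},
          A v i * A v j = A v j * M) →
        Delta0 n (fun v => Relation.ReflTransGen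
          (Step (m v) (N v) (fun j z => T j z v) fun b => R (Fin.cons b v)) (x v) (y v)) ∧
        DFun n (fun v => Nat.card {z // Relation.ReflTransGen
          (Step (m v) (N v) (fun j z => T j z v) fun b => R (Fin.cons b v)) (x v) z}))) ∧
    (∀ m, 2 ≤ m → ∀ s : (Fin 5 → ℕ) → ℕ → ℕ,
      (∀ v i, i < Nat.log m (v 3) → s v i = digit m (v 2) i) →
      (∀ v i, s v (i + Nat.log m (v 3)) =
        (∑ j ∈ Finset.range (Nat.log m (v 3)), digit m (v 0) j * s v (i + j)) *
          (∑ j ∈ Finset.range (Nat.log m (v 3)), digit m (v 1) j * s v (i + j)) % m) →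
      ((∀ (n : ℕ) (R : (Fin n → ℕ) → Prop), Delta0 n R ↔ E2Star n R) ↔
        DFun 5 (fun v => s v (v 4)))) ∧
    (∀ (k : ℕ) (F : Set ((Fin k → Bool) → Bool)),
      (Iterates (FMap F) ↔
        (Tame F ∨ ∀ (n : ℕ) (R : (Fin n → ℕ) → Prop), Delta0 n R ↔ E2Star n R)) ∧
      (Iterates (FMap1 F) ↔
        (Tame F ∨ ∀ (n : ℕ) (R : (Fin n → ℕ) → Prop), Delta0 n R ↔ E2Star n R))) :=
  ⟨fun k n m N B x y t T R A c hm hN hB hx hy ht hT hR hm0 hmN hxb hTb haff =>
    have h := Pool.Agent.H49Bk.aff_poly k n m N B x y t T R A c hm hN hB hx hy ht hT hR hm0 hmN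
      hxb hTb haff
    ⟨fun j => ⟨h.1 j, Pool.Agent.H34Det.charpoly_def (fun v => A v j) (fun v => c v j) hm hN hB ht
      (hT j) hm0 hmN (fun v z hz => hTb v j z hz) (fun v z hz => haff v j z hz)⟩, h.2⟩,
   fun m hm s h0 h1 => Pool.Agent.H49Bk.prod_rec m hm s h0 h1,
   fun _ _ => ⟨⟨fun H => tame_or_eq (one_of_all H), all_of⟩,
    ⟨tame_or_eq, fun h => one_of_all (all_of h)⟩⟩⟩

end Pool.Agent.Results.MP_a56640_lc.AffineIteration
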