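import Pool.Agent.H70G.Iter2
import Pool.Agent.H70G.Plog
import Pool.Agent.H70G.AbGen
import Pool.Agent.H70G.NilTame

/-!
# Limited recursion in families of groups over finite fields, inside bounded formulas

Positive case of `Delta0 = E2Star`. `DFun n` is the class of all functions on `ℕ ^ n` with a
bounded-formula graph and a polynomial bound; `DMap` is the same for other finite sets of variables,
`DRel` are the relations given by bounded formulas.

A format `Φ` fixes the numbers `s`, `d`, `k`, a *rational law* `F` (`d` functions built from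
coordinates and integers by sums, products, inverses and case distinctions, with `k` parameters), and
*bounded formulas* `X` for the domain and `E` for the equality. For `v ∈ ℕ ^ (n + 1)` let `K` be the
field with `p ^ s` elements, `p = v 0`, given by a polynomial with coefficients in the class. The data
for `v` present a group `G` (`Φ.Pres v K t G cls`) if the vectors in `K ^ d` whose coordinates in
`[0, p)` satisfy `X` represent the elements of `G`, products are given by `F`, and `E` is the equality
of the represented elements. So all sections of algebraic groups over finite fields are allowed whose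
two defining subgroups are given by bounded formulas, for instance `A[m]` and `A / m A` with variable
`m`, centralizers, stabilizers.

(1) There is `N` in the class such that `N v` is the order of `G` if the data for `v` present `G` and
every Sylow subgroup of `G` is normal or a product of `κ` cyclic subgroups (`κ` is fixed), and
`N v = 0` if they present no such group; the product of `N (p, u)` over the prime divisors `p` of
`m u` is in the class, too, for `m` in the class.

(2) There are `O`, `W` in the class such that `O (v, x)` is the order of the element `cls x` and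
`W (v, x, a, e)` represents `cls x ^ (a ^ e)`, for all groups.

(3) Limited recursion of exponential and doubly exponential length: let `y ↦ H (u, y)`, with `H` in
the class, induce on the group `G` presented for `σ (u)` an affine map `h` (an endomorphism times a
constant), `G` abelian with `κ` generators. There is `Z` in the class such that `Z u` represents the
iterate number `b u ^ t u` of `h` at the element given by `x u`, for `x`, `b`, `t` in the class.

(4) Products of sequences in the class with at most `(log_2 M + 1) ^ c` members, `M` in the class, are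
in the class, for all groups and all `c`.

(5) Let `r` be given. There is `κ'` such that the conditions in (1) and, for abelian groups, in (3)
are satisfied by all sections of finite groups with a series of `r` factors each of which is abelian
with `r` generators or a section of `GL r K`, `K` with `p ^ s` elements; the condition in (1) is also
satisfied by all finite nilpotent groups. So (1) gives the orders of all sections of `GL r K` that are
defined by bounded formulas: `F` is the matrix product, `X` defines a subgroup and `E` the equality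
modulo a normal subgroup of it.
-/

set_option autoImplicit false

namespace Pool.Agent.Results.MP_a56640_lc.GroupArithmetic

open Pool.Agent.Grz Pool.Agent.H70G

theorem result {n s d k : ℕ} (Φ : Fmt n s d k) (κ : ℕ) :
    -- (1) orders of groups
    (∃ N : (Fin (n + 1) → ℕ) → ℕ, DFun (n + 1) N ∧
      (∀ m : (Fin n → ℕ) → ℕ, DFun n m →
        DFun n (fun u => ∏ p ∈ (m u).primeFactors, N (Fin.cons p u))) ∧
      (∀ (v : Fin (n + 1) → ℕ) (K : Type) [Field K] (t : K) (G : Type) [Group G]
        (cls : (Fin d × Fin s → ℕ) → G), Φ.Pres v K t G cls → Tame κ G → N v = Nat.card G) ∧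
      ∀ v : Fin (n + 1) → ℕ, (¬ ∃ (K : Type) (_ : Field K) (t : K) (G : Type) (_ : Group G)
        (cls : (Fin d × Fin s → ℕ) → G), Φ.Pres v K t G cls ∧ Tame κ G) → N v = 0) ∧
    -- (2) orders of elements, iterated powers
    (∃ (O : (Fin (n + 1) ⊕ Fin d × Fin s → ℕ) → ℕ)
      (W : Fin d × Fin s → (Fin (n + 1) ⊕ Fin d × Fin s ⊕ Fin 2 → ℕ) → ℕ),
      DMap O ∧ (∀ j, DMap (W j)) ∧
      ∀ (v : Fin (n + 1) → ℕ) (K : Type) [Field K] (t : K) (G : Type) [Group G]
        (cls : (Fin d × Fin s → ℕ) → G), Φ.Pres v K t G cls → ∀ x ∈ Φ.Dom v,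
        O (Sum.elim v x) = orderOf (cls x) ∧ ∀ a e : ℕ,
          (fun j => W j (Sum.elim v (Sum.elim x ![a, e]))) ∈ Φ.Dom v ∧
          cls (fun j => W j (Sum.elim v (Sum.elim x ![a, e]))) = cls x ^ (a ^ e)) ∧
    -- (3) iterates of affine maps
    (∀ (m : ℕ) (σ : Fin (n + 1) → (Fin m → ℕ) → ℕ)
      (H : Fin d × Fin s → (Fin m ⊕ Fin d × Fin s → ℕ) → ℕ)
      (x : Fin d × Fin s → (Fin m → ℕ) → ℕ) (b t : (Fin m → ℕ) → ℕ), (∀ i, DFun m (σ i)) →
      (∀ j, DMap (H j)) → (∀ j, DFun m (x j)) → DFun m b → DFun m t →
      ∃ Z : Fin d × Fin s → (Fin m → ℕ) → ℕ, (∀ j, DFun m (Z j)) ∧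
      ∀ (u : Fin m → ℕ) (K : Type) [Field K] (a : K) (G : Type) [Group G]
        (cls : (Fin d × Fin s → ℕ) → G), Φ.Pres (fun i => σ i u) K a G cls → AbGen κ G →
        ∀ h : G → G, IsAff h →
        (∀ y ∈ Φ.Dom (fun i => σ i u), (fun j => H j (Sum.elim u y)) ∈ Φ.Dom (fun i => σ i u) ∧
          cls (fun j => H j (Sum.elim u y)) = h (cls y)) →
        (fun j => x j u) ∈ Φ.Dom (fun i => σ i u) →
        (fun j => Z j u) ∈ Φ.Dom (fun i => σ i u) ∧
          cls (fun j => Z j u) = h^[b u ^ t u] (cls fun j => x j u)) ∧
    -- (4) products of polylogarithmic length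
    (∀ (c m : ℕ) (σ : Fin (n + 1) → (Fin m → ℕ) → ℕ) (P : Fin d × Fin s → (Fin (m + 1) → ℕ) → ℕ)
      (l M : (Fin m → ℕ) → ℕ), (∀ i, DFun m (σ i)) → (∀ j, DFun (m + 1) (P j)) → DFun m l →
      DFun m M → (∀ u, l u ≤ (Nat.log 2 (M u) + 1) ^ c) →
      ∃ Z : Fin d × Fin s → (Fin m → ℕ) → ℕ, (∀ j, DFun m (Z j)) ∧
      ∀ (u : Fin m → ℕ) (K : Type) [Field K] (a : K) (G : Type) [Group G]
        (cls : (Fin d × Fin s → ℕ) → G), Φ.Pres (fun i => σ i u) K a G cls →
        (∀ i, i < l u → (fun j => P j (Fin.cons i u)) ∈ Φ.Dom fun i => σ i u) →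
        (fun j => Z j u) ∈ Φ.Dom (fun i => σ i u) ∧ cls (fun j => Z j u) =
          ((List.range (l u)).map fun i => cls fun j => P j (Fin.cons i u)).prod) ∧
    -- (5) groups that satisfy the conditions
    (∀ r : ℕ, ∃ κ' : ℕ, ∀ (p : ℕ) (K : Type) [Field K], p.Prime → Nat.card K = p ^ s →
      ∀ (G' G : Type) [Group G'] [Group G] [Finite G'], Ser K r r G' → Sec G' G →
        Tame κ' G ∧ ((∀ x y : G, x * y = y * x) → AbGen κ' G)) ∧
    ∀ (G : Type) [Group G] [Finite G], Group.IsNilpotent G → Tame κ G := by
  obtain ⟨N, O, W, h1, h2, h3, h4, h5, h6, -, -⟩ := top Φ κ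
  exact ⟨⟨N, h1, h2, fun v K _ t G _ cls h => (h5 v K t G cls h).2, h6⟩,
    ⟨O, W, h3, h4, fun v K _ t G _ cls h => (h5 v K t G cls h).1⟩,
    fun m σ H x b t hσ hH hx hb ht => top_iter2 Φ κ m σ H x b t hσ hH hx hb ht,
    fun c m σ P l M hσ hP hl hM hlM => top_plog Φ c m σ P l M hσ hP hl hM hlM,
    fun r => main_ser r s, fun G _ _ h => tame_of_nilpotent κ h⟩

end Pool.Agent.Results.MP_a56640_lc.GroupArithmetic
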