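import Mathlib
import Pool.Agent.LRch.SgMod
import Pool.Agent.LRch.UMods
import Pool.Agent.LRch.Main

/-!
Products of matrices of a fixed size over `ℤ/m`, and reachability by affine maps: for families of
matrices defined by bounded formulas, membership in the generated monoid and directed reachability
are defined by bounded formulas if the moduli are prime. If the moduli have boundedly many prime
divisors and the maps are bijective, the same holds, and the order of the generated group and the
number of reachable points are defined by bounded formulas.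
-/

set_option autoImplicit false

namespace Pool.Agent.Results.MP_a56640_lc.LinearReachability

open Pool.Agent.Grz Pool.Agent.PTr

/-- The residues in `[0, m)` of the entries of an `a × b` matrix over `ℤ/m`, row by row. -/
def res {a b m : ℕ} (X : Matrix (Fin a) (Fin b) (ZMod m)) (i : Fin (a * b)) : ℕ :=
  (X (finProdFinEquiv.symm i).1 (finProdFinEquiv.symm i).2).val

/-- The set of the `a × b` matrices over `ℤ/m` whose residues satisfy the relation `R` with the
parameters `v`. -/
def Mats {n a b : ℕ} (R : (Fin (n + a * b) → ℕ) → Prop) (m : ℕ) (v : Fin n → ℕ) :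
    Set (Matrix (Fin a) (Fin b) (ZMod m)) :=
  {X | R (Fin.append v (res X))}

/-- The relation that `w = (v, res X)` for a product `X` of matrices in `Mats R (m v) v` (the empty
product `1` is included). -/
def Prods {n r : ℕ} (R : (Fin (n + r * r) → ℕ) → Prop) (m : (Fin n → ℕ) → ℕ)
    (w : Fin (n + r * r) → ℕ) : Prop :=
  ∃ X ∈ Submonoid.closure (Mats (a := r) (b := r) R (m fun i => w (Fin.castAdd (r * r) i))
    fun i => w (Fin.castAdd (r * r) i)), ∀ i, res X i = w (Fin.natAdd n i)

/-- The affine map `u ↦ X (u, 1)` given by an `r × (r + 1)` matrix. -/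
def step {r m : ℕ} (X : Matrix (Fin r) (Fin (r + 1)) (ZMod m)) (u : Fin r → ZMod m) :
    Fin r → ZMod m :=
  X.mulVec (Fin.snoc u 1)

/-- The point `y` can be reached from `x` by finitely many steps `u ↦ X (u, 1)`, `X ∈ S`. -/
def Reach {r m : ℕ} (S : Set (Matrix (Fin r) (Fin (r + 1)) (ZMod m))) :
    (Fin r → ZMod m) → (Fin r → ZMod m) → Prop :=
  Relation.ReflTransGen fun u u' => ∃ X ∈ S, u' = step X u

/-- The vector of the classes modulo `m` of the values at `v` of `r` functions. -/
def vec {n r : ℕ} (x : Fin r → (Fin n → ℕ) → ℕ) (m : ℕ) (v : Fin n → ℕ) : Fin r → ZMod m :=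
  fun i => (x i v : ZMod m)

/-- **Main theorem.** Block 1: let `p` be a function in `DFun n` all of whose values are prime. For
relations `R` in `Delta0` the relation that a matrix over `ℤ/p(v)` is a product of (finitely many)
matrices in `Mats R (p v) v` is in `Delta0`; and for vectors `x`, `y` of functions in `DFun n` the
relation that the point `y(v)` can be reached from `x(v)` by affine steps in `Mats R (p v) v` is in
`Delta0`.
Block 2: let `m` be a function in `DFun n` whose values are not zero and have at most `k` prime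
divisors. If for all `v` all matrices in `Mats R (m v) v` are invertible, then the relation that a
matrix is a product of such matrices is in `Delta0`, and the order of the group generated by them is in
`DFun n`. If for all `v` all affine maps in `Mats R (m v) v` are injective, then reachability from
`x(v)` to `y(v)` is in `Delta0`, and the number of the points that can be reached from `x(v)` is in
`DFun n`. -/
theorem result (n r k : ℕ) :
    -- prime moduli, arbitrary matrices
    (∀ p : (Fin n → ℕ) → ℕ, DFun n p → (∀ v, (p v).Prime) →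
      (∀ R : (Fin (n + r * r) → ℕ) → Prop, Delta0 (n + r * r) R →
        Delta0 (n + r * r) (Prods R p)) ∧
      (∀ R : (Fin (n + r * (r + 1)) → ℕ) → Prop, Delta0 (n + r * (r + 1)) R →
        ∀ x y : Fin r → (Fin n → ℕ) → ℕ, (∀ i, DFun n (x i)) → (∀ i, DFun n (y i)) →
        Delta0 n fun v => Reach (Mats R (p v) v) (vec x (p v) v) (vec y (p v) v))) ∧
    -- moduli with at most `k` prime divisors, invertible matrices and injective affine maps
    (∀ m : (Fin n → ℕ) → ℕ, DFun n m → (∀ v, m v ≠ 0 ∧ (m v).primeFactors.card ≤ k) →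
      (∀ R : (Fin (n + r * r) → ℕ) → Prop, Delta0 (n + r * r) R →
        (∀ v, ∀ X ∈ Mats (a := r) (b := r) R (m v) v, IsUnit X) →
        Delta0 (n + r * r) (Prods R m) ∧
        DFun n fun v => Nat.card (Submonoid.closure (Mats (a := r) (b := r) R (m v) v))) ∧
      (∀ R : (Fin (n + r * (r + 1)) → ℕ) → Prop, Delta0 (n + r * (r + 1)) R →
        (∀ v, ∀ X ∈ Mats (a := r) (b := r + 1) R (m v) v, Function.Injective (step X)) →
        ∀ x y : Fin r → (Fin n → ℕ) → ℕ, (∀ i, DFun n (x i)) → (∀ i, DFun n (y i)) →
        (Delta0 n fun v => Reach (Mats R (m v) v) (vec x (m v) v) (vec y (m v) v)) ∧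
        DFun n fun v => Nat.card {z // Reach (Mats R (m v) v) (vec x (m v) v) z})) := by
  obtain ⟨c, hc⟩ := LRch.bgen_gl r
  obtain ⟨c', hc'⟩ := LRch.bgen_gl (r + 1)
  refine ⟨fun p hp hprime => ⟨fun R hR => LRch.main_mem hp hprime hc hR,
    fun R hR x y hx hy => LRch.main_reach hp hprime hc' hR hx hy⟩, fun m hm hk => ?_⟩
  obtain ⟨d, hd⟩ := LRch.bgen_mod_of r k c fun p _ H => hc p H
  obtain ⟨d', hd'⟩ := LRch.bgen_mod_of (r + 1) k c' fun p _ H => hc' p H
  obtain ⟨Q, hQ⟩ := LRch.sylUB_mod r k
  obtain ⟨Q', hQ'⟩ := LRch.sylUB_mod (r + 1) k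
  have h0 : ∀ v, m v ≠ 0 := fun v => (hk v).1
  exact ⟨fun R hR hU =>
    ⟨LRch.mod_mem hm h0 (fun v H => hd _ (hk v).1 (hk v).2 H) hR hU,
      LRch.mod_card hm h0 (fun v H => hd _ (hk v).1 (hk v).2 H)
        (fun v H => hQ _ (hk v).1 (hk v).2 H) hR hU⟩,
    fun R hR hU x y hx hy =>
    ⟨LRch.mod_reach hm h0 (fun v H => hd' _ (hk v).1 (hk v).2 H) hR hU hx hy,
      LRch.mod_orbit hm h0 (fun v H => hd' _ (hk v).1 (hk v).2 H)
        (fun v H => hQ' _ (hk v).1 (hk v).2 H) hR hU hx⟩⟩

end Pool.Agent.Results.MP_a56640_lc.LinearReachability
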