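import Pool.Agent.IsoE.UTop

/-!
# Numbers of points modulo squarefree numbers in every dimension, with first-order conditions, inside bounded formulas

Positive case of `Delta0 = E2Star`. `DFun n` is the class of all functions on `ℕ ^ n` with a bounded-formula graph and
a polynomial bound.

`b` systems of polynomial equations, the system number `l` in the `A l` unknowns `z l`, each with a first-order formula
`φ l` of the language of rings in the free variables `z l` and `t` parameters; `k` further equations, the equation number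
`j` is `∑ i, a j i * ∏ l, f j i l (z l) * ∏ t, x t ^ M j i t = 0`, where `x` are `s` further unknowns, `f j i l` is a
polynomial in the unknowns `z l`, and the exponents `M j i t` are fixed. The vectors `(e j, M j i)` in `ℚ ^ (k + s)`, where
`e j` are the unit vectors of `ℚ ^ k`, are linearly independent (for `k = 1`: the exponent vectors are affinely
independent). The parameters `c i`, the numbers `a j i` and the coefficients of all the polynomials are functions in the
class of `v`; a modulus `m v` in the class, given without factorisation. If `m v` is squarefree and modulo every prime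
divisor of `m v` the solution sets of the `b` systems over the algebraic closure have dimension at most one, then the
number of the solutions of all the equations in `ZMod (m v)`, for which all the formulas hold in the ring `ZMod (m v)`, is a
function in the class (and so is the condition).

`b = 1`, `k = 0`: all curves; `b = 0`, `k = 1`: the equations `∑ i, a i * x ^ M i = 0`.
-/

set_option autoImplicit false

namespace Pool.Agent.Results.MP_a56640_lc.PointCountsHigher

open Finset Polynomial Pool.Agent.Grz Pool.Agent.CvS

/-- The value at `z` of the polynomial in `s` unknowns with exponents at most `d` and coefficients `c`. -/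
def val {s d : ℕ} {K : Type} [CommRing K] (c : (Fin s → Fin (d + 1)) → ℕ) (z : Fin s → K) : K :=
  ∑ e : Fin s → Fin (d + 1), (c e : K) * ∏ i, z i ^ (e i : ℕ)

/-- The set of the solutions in `K ^ s` of the system with the coefficients `c`. -/
def Sol {s d r : ℕ} (K : Type) [CommRing K] (c : Fin r → (Fin s → Fin (d + 1)) → ℕ) :
    Set (Fin s → K) := {z | ∀ l, val (c l) z = 0}

/-- The dimension of `S` is at most one: any two coordinates satisfy a nonzero polynomial on `S`. -/
def DimLeOne {K : Type} [Field K] {s : ℕ} (S : Set (Fin s → K)) : Prop :=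
  ∀ i j : Fin s, i < j → ∃ G : K[X][X], G ≠ 0 ∧ ∀ z ∈ S, G.evalEval (z i) (z j) = 0

/-- `m` is squarefree and modulo every prime divisor of `m` the solution set over the algebraic closure has
dimension at most one. -/
def Good {s d r : ℕ} (m : ℕ) (c : Fin r → (Fin s → Fin (d + 1)) → ℕ) : Prop :=
  Squarefree m ∧ ∀ p : ℕ, ∀ hp : p.Prime, p ∣ m →
    haveI := Fact.mk hp
    DimLeOne (Sol (AlgebraicClosure (ZMod p)) c)

/-- The first-order formula `φ` of the language of rings holds in the ring `R` for the elements `x`. -/
def Holds {α : Type} (φ : FirstOrder.Language.ring.Formula α) (R : Type) [CommRing R]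
    (x : α → R) : Prop :=
  letI := FirstOrder.Ring.compatibleRingOfRing R
  φ.Realize x

open scoped Classical in
theorem result (n d b k s t : ℕ) (A r : Fin b → ℕ) (u : Fin k → ℕ)
    (M : ∀ j, Fin (u j) → Fin s → ℕ)
    (hM : LinearIndependent ℚ fun a : (j : Fin k) × Fin (u j) =>
      (Sum.elim (Pi.single a.1 1) fun i => (M a.1 a.2 i : ℚ) : Fin k ⊕ Fin s → ℚ))
    (φ : ∀ l, FirstOrder.Language.ring.Formula (Fin (A l) ⊕ Fin t))
    (m : (Fin n → ℕ) → ℕ) (P : ∀ l, Fin (r l) → (Fin (A l) → Fin (d + 1)) → (Fin n → ℕ) → ℕ)
    (c : Fin t → (Fin n → ℕ) → ℕ) (a : ∀ j, Fin (u j) → (Fin n → ℕ) → ℕ)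
    (f : ∀ j, Fin (u j) → ∀ l, (Fin (A l) → Fin (d + 1)) → (Fin n → ℕ) → ℕ) (hm : DFun n m)
    (hP : ∀ l i e, DFun n (P l i e)) (hc : ∀ i, DFun n (c i)) (ha : ∀ j i, DFun n (a j i))
    (hf : ∀ j i l e, DFun n (f j i l e)) :
    DFun n (fun v => if Squarefree (m v) ∧ ∀ l, Good (m v) (fun i e => P l i e v) then
      Nat.card {w : (∀ l, Fin (A l) → ZMod (m v)) × (Fin s → ZMod (m v)) //
        (∀ l, w.1 l ∈ Sol (ZMod (m v)) (fun i e => P l i e v) ∧
          Holds (φ l) (ZMod (m v)) (Sum.elim (w.1 l) fun i => (c i v : ZMod (m v)))) ∧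
          ∀ j, ∑ i, a j i v * (∏ l, val (fun e => f j i l e v) (w.1 l)) *
            ∏ h, w.2 h ^ M j i h = 0}
      else 0) := by
  have e : (fun v => if Squarefree (m v) ∧ ∀ l, Good (m v) (fun i e => P l i e v) then
      Nat.card {w : (∀ l, Fin (A l) → ZMod (m v)) × (Fin s → ZMod (m v)) //
        (∀ l, w.1 l ∈ Sol (ZMod (m v)) (fun i e => P l i e v) ∧
          Holds (φ l) (ZMod (m v)) (Sum.elim (w.1 l) fun i => (c i v : ZMod (m v)))) ∧
          ∀ j, ∑ i, a j i v * (∏ l, val (fun e => f j i l e v) (w.1 l)) *
            ∏ h, w.2 h ^ M j i h = 0}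
      else 0) = fun v => if IsoE.Gd P v (m v) then IsoE.Uc P M a f φ c v (ZMod (m v)) else 0 := by
    funext v
    have h1 : (Squarefree (m v) ∧ ∀ l, Good (m v) (fun i e => P l i e v)) ↔ IsoE.Gd P v (m v) := by
      refine and_congr_right fun hs => ?_
      constructor
      · intro h p hp hd l
        exact ⟨hp, (h l).2 p hp hd⟩
      · intro h l
        refine ⟨hs, fun p hp hd => ?_⟩
        obtain ⟨_, h2⟩ := h p hp hd l
        exact h2
    by_cases h2 : Squarefree (m v) ∧ ∀ l, Good (m v) (fun i e => P l i e v)
    · rw [if_pos h2, if_pos (h1.1 h2)]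
      rfl
    · rw [if_neg h2, if_neg (fun h => h2 (h1.2 h))]
  have hM' : ∀ g : ∀ j, Fin (u j) → ℚ, (∀ j, ∑ i, g j i = 0) →
      (∀ t, ∑ j, ∑ i, g j i * M j i t = 0) → ∀ j i, g j i = 0 := by
    intro g h1 h2 j i
    refine Fintype.linearIndependent_iff.1 hM (fun a => g a.1 a.2) ?_ ⟨j, i⟩
    rw [Fintype.sum_sigma]
    funext t
    rcases t with t | t
    · simp only [Finset.sum_apply, Pi.smul_apply, Sum.elim_inl, smul_eq_mul, Pi.zero_apply]
      rw [Finset.sum_eq_single t]
      · simpa using h1 t
      · intro j' _ hne
        refine Finset.sum_eq_zero fun i _ => ?_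
        rw [Pi.single_eq_of_ne (Ne.symm hne), mul_zero]
      · intro h
        exact absurd (Finset.mem_univ _) h
    · simpa only [Finset.sum_apply, Pi.smul_apply, Sum.elim_inr, smul_eq_mul, Pi.zero_apply] using
        h2 t
  rw [e]
  exact IsoE.utop hP hM' ha hf φ hc hm

end Pool.Agent.Results.MP_a56640_lc.PointCountsHigher
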